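import Pool.Agent.helper3.T6R.Spec

set_option autoImplicit false

/-! T6R (MP_16912e_nt): row RAT, the reduced tuple. -/

namespace Pool.Agent.T6R

open Finset NumberField Pool.Agent.helper3.FT Pool.Agent.helper47.RA Pool.Agent.T5 Pool.Agent.T6
open scoped nonZeroDivisors

theorem RAT : RAT_stmt := by
  intro K _ _ Q F hβ hγ
  obtain ⟨d, n, k, m, g, y, y', hpos, hd, h1, h2, h3, h4, h5, h6, -, r1, r2, r3, r4⟩ :=
    F.h52_red hβ.ne'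
  have hcop : IsCoprime n k := by
    have hg : 0 < Int.gcd (Q.Y F.β) (Q.Y F.γ) := Int.gcd_pos_of_ne_zero_left _ hβ.ne'
    have h7 := Int.isCoprime_iff_gcd_eq_one.2 (Int.gcd_ediv_gcd_ediv_gcd hg)
    rwa [← hd, h1, h2, Int.mul_ediv_cancel_left _ hpos.ne',
      Int.mul_ediv_cancel_left _ hpos.ne'] at h7
  have hn : 0 < n := by
    rw [h1] at hβ
    exact (mul_pos_iff_of_pos_left hpos).1 hβ
  have hk : 0 < k := by
    rw [h2] at hγ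
    exact (mul_pos_iff_of_pos_left hpos).1 hγ
  obtain ⟨d', rfl⟩ := Int.eq_ofNat_of_zero_le hpos.le
  obtain ⟨n', rfl⟩ := Int.eq_ofNat_of_zero_le hn.le
  obtain ⟨k', rfl⟩ := Int.eq_ofNat_of_zero_le hk.le
  have hn2 : (n' : ℤ) ^ 2 ≠ 0 := pow_ne_zero _ hn.ne'
  have hlam : lam ((n', k'), (m, g, F.Z)) = F.Λ := by
    show (m * g + F.Z * (k' : ℤ) ^ 2) / (n' : ℤ) ^ 2 = F.Λ
    rw [show m * g + F.Z * (k' : ℤ) ^ 2 = F.Λ * (n' : ℤ) ^ 2 by linear_combination r1]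
    exact Int.mul_ediv_cancel _ hn2
  have hdis : dis ((n', k'), (m, g, F.Z)) = Q.D * (d' : ℤ) ^ 2 := by
    show ((F.Z * g - lam ((n', k'), (m, g, F.Z)) * m) ^ 2 -
      4 * F.Z ^ 2 * lam ((n', k'), (m, g, F.Z)) * (k' : ℤ) ^ 2) / ((n' : ℤ) * k') ^ 2 =
        Q.D * (d' : ℤ) ^ 2
    rw [hlam, show (F.Z * g - F.Λ * m) ^ 2 - 4 * F.Z ^ 2 * F.Λ * (k' : ℤ) ^ 2 =
      (Q.D * (d' : ℤ) ^ 2) * ((n' : ℤ) * k') ^ 2 by linear_combination -r4]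
    exact Int.mul_ediv_cancel _ (pow_ne_zero _ (mul_ne_zero hn.ne' hk.ne'))
  refine ⟨d', ((n', k'), (m, g, F.Z)), ⟨⟨F, rfl, rfl, rfl, rfl, hlam.symm, h3, h4⟩, ?_, ?_, h1, h2, hdis⟩,
    ?_, rfl, h3, h4⟩
  · refine ⟨?_, ?_, ?_, ?_, ?_⟩
    · show 1 ≤ n'
      exact_mod_cast hn
    · show 1 ≤ k'
      exact_mod_cast hk
    · exact Nat.isCoprime_iff_coprime.1 hcop
    · show (n' : ℤ) ^ 3 ∣ F.Z * (k' : ℤ) ^ 4 + m * g * (k' : ℤ) ^ 2 - g ^ 2 * (n' : ℤ) ^ 2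
      refine ⟨-y', ?_⟩
      linear_combination (k' : ℤ) ^ 2 * r1 + (n' : ℤ) ^ 2 * r3
    · show (k' : ℤ) ∣ m ^ 2 - F.Z * (n' : ℤ) ^ 2
      refine ⟨-y, ?_⟩
      linear_combination -r2
  · exact_mod_cast hpos
  · unfold gd
    exact_mod_cast hd

end Pool.Agent.T6R
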