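import Pool.Agent.helper3.T6R.Spec
import Pool.Agent.helper18.T5.BCA

set_option autoImplicit false

/-!
# T6R (MP_16912e_nt), row RB0: one block of the box
-/

namespace Pool.Agent.T6R

open Finset NumberField Pool.Agent.helper3.FT Pool.Agent.helper47.RA Pool.Agent.T5 Pool.Agent.T6
open scoped nonZeroDivisors

/-- integers in a half-open real interval -/
theorem RB0_int (m₀ L : ℝ) (m : ℤ) (h1 : m₀ < m) (h2 : (m : ℝ) ≤ m₀ + L) :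
    m ∈ Ico (⌊m₀⌋ + 1) (⌊m₀⌋ + 1 + ((⌊L⌋₊ + 1 : ℕ) : ℤ)) := by
  rw [Finset.mem_Ico]
  have h3 : ⌊m₀⌋ < m := Int.floor_lt.mpr h1
  refine ⟨by omega, ?_⟩
  have h4 := Int.lt_floor_add_one m₀
  have h5 := Nat.lt_floor_add_one L
  have h6 : (m : ℝ) < ((⌊m₀⌋ + 1 + ((⌊L⌋₊ + 1 : ℕ) : ℤ) : ℤ) : ℝ) := by
    push_cast
    linarith
  exact_mod_cast h6

/-- **RB0** -/
theorem RB0 (hBXA : BXA_stmt) (hBXB : BXB_stmt) (hBLU : BLU_stmt) (hRE1 : RE1_stmt) (hRE2 : RE2_stmt) (hTR : TR_stmt) : RB0_stmt := by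
  intro ε₀ hε₀
  have _ := hTR
  obtain ⟨ε, hεd⟩ : ∃ ε : ℝ, ε = ε₀ / 4 := ⟨_, rfl⟩
  have hε : 0 < ε := by rw [hεd]; positivity
  obtain ⟨CA, hCA1, hA⟩ := hBXA
  obtain ⟨CB, hCB1, hB⟩ := hBXB
  obtain ⟨CL, hCL1, hL⟩ := hBLU (ε / 2) (by positivity)
  obtain ⟨C₀, hC₀⟩ : ∃ C₀ : ℝ, C₀ = 5000 + CA + CB := ⟨_, rfl⟩
  have hC₀1 : 5000 ≤ C₀ := by linarith
  have hp0 : 0 ≤ (2 * C₀) ^ (ε / 2) := Real.rpow_nonneg (by linarith) _
  refine ⟨800000 + CL * (2 * C₀) ^ (ε / 2) * (CA + CB), ?_, ?_⟩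
  · have : 0 ≤ CL * (2 * C₀) ^ (ε / 2) * (CA + CB) := by positivity
    linarith
  intro x y S m₀ z₀ N₁ K₁ hx1 hy1 hS0 hS1 hN₁ hK₁ hn8 hk8 hkn' F hF
  have hx0 : 0 < x := by linarith
  have hy0 : 0 < y := by linarith
  obtain ⟨N, hNd⟩ : ∃ N : ℝ, N = (x * y) ^ 4 := ⟨_, rfl⟩
  have hxy1 : 1 ≤ x * y := one_le_mul_of_one_le_of_one_le hx1 hy1
  have hN : 1 ≤ N := by rw [hNd]; exact one_le_pow₀ hxy1
  have hN0 : 0 < N := by linarith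
  have hQQ : x ^ 4 * y ^ 4 ≤ N := by rw [hNd, mul_pow]
  have hNpow : N ^ ε = (x * y) ^ ε₀ := by
    rw [hNd, ← Real.rpow_natCast_mul (by positivity), hεd]
    congr 1
    push_cast
    ring
  rw [← hNpow]
  have hN₁R : (1 : ℝ) ≤ N₁ := by exact_mod_cast hN₁
  have hK₁R : (1 : ℝ) ≤ K₁ := by exact_mod_cast hK₁
  have hNε : 1 ≤ N ^ ε := Real.one_le_rpow hN hε.le
  have hSB := BCA_SB x y S hx0.le hy0.le hS0.le
  have hSB0 : 0 ≤ SB x y S := le_trans (by positivity) hSB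
  -- the box
  have hx2 : 1 ≤ x ^ 2 := one_le_pow₀ hx1
  have hy2 : 1 ≤ y ^ 2 := one_le_pow₀ hy1
  have hxN : 1 ≤ x ^ 2 * (N₁ : ℝ) := one_le_mul_of_one_le_of_one_le hx2 hN₁R
  obtain ⟨M, hM⟩ : ∃ M : ℕ, M = ⌊x ^ 2 * (N₁ : ℝ)⌋₊ + 1 := ⟨_, rfl⟩
  obtain ⟨G, hG⟩ : ∃ G : ℕ, G = 2 * ⌈y ^ 4 * (N₁ : ℝ) / x ^ 2⌉₊ + 1 := ⟨_, rfl⟩
  obtain ⟨V, hV⟩ : ∃ V : ℕ, V = ⌊x ^ 4⌋₊ + 1 := ⟨_, rfl⟩
  have hMlo : x ^ 2 * (N₁ : ℝ) ≤ M := by
    have := Nat.lt_floor_add_one (x ^ 2 * (N₁ : ℝ))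
    rw [hM]
    push_cast
    linarith
  have hMhi : (M : ℝ) ≤ 11 * (x ^ 2 * N₁) := by
    have := Nat.floor_le (by positivity : 0 ≤ x ^ 2 * (N₁ : ℝ))
    rw [hM]
    push_cast
    linarith
  have hGlo : y ^ 4 * (N₁ : ℝ) ≤ x ^ 2 * G := by
    have h1 := Nat.le_ceil (y ^ 4 * (N₁ : ℝ) / x ^ 2)
    have h2 : y ^ 4 * (N₁ : ℝ) / x ^ 2 ≤ G := by
      have h3 : 0 ≤ y ^ 4 * (N₁ : ℝ) / x ^ 2 := by positivity
      rw [hG]
      push_cast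
      linarith
    rw [div_le_iff₀ (by positivity)] at h2
    linarith
  have hGhi : x ^ 2 * (G : ℝ) ≤ 32 * (y ^ 4 * N₁) := by
    have h1 := (Nat.ceil_lt_add_one (by positivity : 0 ≤ y ^ 4 * (N₁ : ℝ) / x ^ 2)).le
    have h2 : (G : ℝ) ≤ 2 * (y ^ 4 * (N₁ : ℝ) / x ^ 2) + 3 := by
      rw [hG]
      push_cast
      linarith
    have h3 : x ^ 2 ≤ 2 * (y ^ 4 * N₁) := by
      have h4 : x ^ 2 ≤ x ^ 2 * K₁ := le_mul_of_one_le_right (by positivity) hK₁R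
      have h5 : y ^ 2 * (N₁ : ℝ) ≤ y ^ 4 * N₁ := by
        apply mul_le_mul_of_nonneg_right _ (by positivity)
        exact pow_le_pow_right₀ hy1 (by norm_num)
      linarith
    calc x ^ 2 * (G : ℝ) ≤ x ^ 2 * (2 * (y ^ 4 * (N₁ : ℝ) / x ^ 2) + 3) := by gcongr
      _ = 2 * (y ^ 4 * N₁) + 3 * x ^ 2 := by field_simp
      _ ≤ 32 * (y ^ 4 * N₁) := by
        have : 0 ≤ y ^ 4 * (N₁ : ℝ) := by positivity
        linarith
  have hx41 : 1 ≤ x ^ 4 := one_le_pow₀ hx1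
  have hy41 : 1 ≤ y ^ 4 := one_le_pow₀ hy1
  have hV1 : 1 ≤ V := by omega
  have hV1R : (1 : ℝ) ≤ V := by exact_mod_cast hV1
  have hVhi : (V : ℝ) ≤ 2 * x ^ 4 := by
    have := Nat.floor_le (by positivity : 0 ≤ x ^ 4)
    rw [hV]
    push_cast
    linarith
  have hVlo : x ^ 4 ≤ 2 * V := by
    have := Nat.lt_floor_add_one (x ^ 4)
    rw [hV]
    push_cast
    have h2 : (0 : ℝ) ≤ (⌊x ^ 4⌋₊ : ℝ) := Nat.cast_nonneg _
    linarith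
  have hM1 : 1 ≤ M := by omega
  have hG1 : 1 ≤ G := by omega
  have hM1R : (1 : ℝ) ≤ M := by exact_mod_cast hM1
  have hG1R : (1 : ℝ) ≤ G := by exact_mod_cast hG1
  have hMG : (M : ℝ) * G ≤ 352 * (y ^ 4 * (N₁ : ℝ) ^ 2) := by
    have h1 : (M : ℝ) * (x ^ 2 * G) ≤ 11 * (x ^ 2 * N₁) * (32 * (y ^ 4 * N₁)) := by gcongr
    have h2 : x ^ 2 * ((M : ℝ) * G) ≤ x ^ 2 * (352 * (y ^ 4 * (N₁ : ℝ) ^ 2)) := by
      calc x ^ 2 * ((M : ℝ) * G) = (M : ℝ) * (x ^ 2 * G) := by ring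
        _ ≤ _ := h1
        _ = _ := by ring
    exact le_of_mul_le_mul_left h2 (by positivity)
  obtain ⟨ρ, c₀, hRes, hcount⟩ := BCA_res hRE1 hRE2 N₁ K₁
  have hcard := hcount (⌊m₀⌋ + 1) (-(⌈y ^ 4 * (N₁ : ℝ) / x ^ 2⌉₊ : ℤ)) (⌊z₀⌋ + 1)
    M G V F (by
      intro t ht
      obtain ⟨b1, b2, b3, b4, b5, b6, b7, b8, b9, b10⟩ := hF t ht
      refine ⟨b1, b2, b3, b4, b5, ?_, ?_, ?_⟩
      · rw [hM]
        exact RB0_int _ _ _ b6 b7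
      · rw [hG]
        refine BCA_int _ _ ?_
        rw [le_div_iff₀ (by positivity)]
        linarith
      · rw [hV]
        exact RB0_int _ _ _ b9 b10)
  have hWc := BCA_pc N₁ K₁
  obtain ⟨H, hH⟩ : ∃ H : ℕ, H = N₁ ^ 3 * K₁ / (64 * V) := ⟨_, rfl⟩
  have hH64 : 64 * V * H ≤ N₁ ^ 3 * K₁ := by
    rw [hH]
    exact Nat.mul_div_le _ _
  have hHlt : N₁ ^ 3 * K₁ < 64 * V * (H + 1) := by
    rw [hH]
    exact Nat.lt_mul_div_succ _ (by omega)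
  have hH64R : 64 * (V : ℝ) * H ≤ (N₁ : ℝ) ^ 3 * K₁ := by exact_mod_cast hH64
  have hHltR : (N₁ : ℝ) ^ 3 * K₁ ≤ 64 * V * (H + 1) := by exact_mod_cast hHlt.le
  by_cases hH1 : 1 ≤ H
  · have hH1R : (1 : ℝ) ≤ H := by exact_mod_cast hH1
    have hHu : (N₁ : ℝ) ^ 3 * K₁ ≤ 256 * H * x ^ 4 := by
      calc (N₁ : ℝ) ^ 3 * K₁ ≤ 64 * V * (H + 1) := hHltR
        _ ≤ 64 * V * (2 * H) := by gcongr; linarith
        _ = 128 * H * V := by ring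
        _ ≤ 128 * H * (2 * x ^ 4) := by gcongr
        _ = 256 * H * x ^ 4 := by ring
    have hbx : BXH x y S N₁ K₁ M G H := by
      refine ⟨hx1, hy1, hS0, hS1, hN₁, hK₁, hH1, hn8, hk8, hkn', hMlo, ?_, hGlo, ?_, ?_, ?_⟩
      · refine hMhi.trans ?_
        have : 0 ≤ x ^ 2 * (N₁ : ℝ) := by positivity
        linarith
      · refine hGhi.trans ?_
        have : 0 ≤ y ^ 4 * (N₁ : ℝ) := by positivity
        linarith
      · refine hHu.trans ?_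
        have : 0 ≤ (H : ℝ) * x ^ 4 := by positivity
        linarith
      · calc 32 * (H : ℝ) * x ^ 4 ≤ 32 * H * (2 * V) := by gcongr
          _ = 64 * V * H := by ring
          _ ≤ _ := hH64R
    obtain ⟨a, ha1, ha2, ha3⟩ : ∃ a : Fin 4 → ℕ, Sides N₁ K₁ M G H 1 1 1 a ∧
        (∀ i, (a i : ℝ) ≤ (CA + CB) * (x * y) ^ 8) ∧
        √((M : ℝ) * G) / H * nB N₁ K₁ H 1 1 1 1 a ≤ (CA + CB) * SB x y S := by
      have hp8 : 0 ≤ (x * y) ^ 8 := by positivity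
      rcases le_total (x ^ 2) ((N₁ : ℝ) * K₁) with h | h
      · obtain ⟨a, h1, h2, h3⟩ := hA x y S N₁ K₁ M G H hbx h
        refine ⟨a, h1, fun i => (h2 i).trans ?_, h3.trans ?_⟩
        · exact mul_le_mul_of_nonneg_right (by linarith) hp8
        · exact mul_le_mul_of_nonneg_right (by linarith) hSB0
      · obtain ⟨a, h1, h2, h3⟩ := hB x y S N₁ K₁ M G H hbx h
        refine ⟨a, h1, fun i => (h2 i).trans ?_, h3.trans ?_⟩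
        · exact mul_le_mul_of_nonneg_right (by linarith) hp8
        · exact mul_le_mul_of_nonneg_right (by linarith) hSB0
    -- sizes up to T
    have hN2 : N ≤ N ^ 2 := by
      rw [sq]
      exact le_mul_of_one_le_right hN0.le hN
    have hN21 : 1 ≤ N ^ 2 := one_le_pow₀ hN
    have hxN4 : x ^ 4 ≤ N := le_trans (le_mul_of_one_le_right (by positivity) hy41) hQQ
    have hyN4 : y ^ 4 ≤ N := le_trans (le_mul_of_one_le_left (by positivity) hx41) hQQ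
    have hx24 : x ^ 2 ≤ x ^ 4 := pow_le_pow_right₀ hx1 (by norm_num)
    have hy24 : y ^ 2 ≤ y ^ 4 := pow_le_pow_right₀ hy1 (by norm_num)
    have hTle : ∀ u : ℕ, (u : ℝ) ≤ C₀ * N ^ 2 → u ≤ ⌈C₀ * N ^ 2⌉₊ := by
      intro u hu
      exact_mod_cast hu.trans (Nat.le_ceil _)
    have hCN : ∀ c : ℝ, c ≤ 5000 → 0 ≤ c → c * N ≤ C₀ * N ^ 2 := by
      intro c hc hc0
      have h1 : c * N ≤ 5000 * N := mul_le_mul_of_nonneg_right hc hN0.le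
      have h2 : 5000 * N ≤ C₀ * N ^ 2 := mul_le_mul hC₀1 hN2 hN0.le (by linarith)
      linarith
    have hn8' : (N₁ : ℝ) ≤ 8 * x ^ 2 := by
      refine hn8.trans ?_
      exact mul_le_of_le_one_right (by positivity) hS1
    have hk8' : (K₁ : ℝ) ≤ 8 * y ^ 2 := by
      refine hk8.trans ?_
      exact mul_le_of_le_one_right (by positivity) hS1
    have T1 : N₁ ≤ ⌈C₀ * N ^ 2⌉₊ := hTle _ (by
      have := hCN 8 (by norm_num) (by norm_num)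
      linarith)
    have T2 : K₁ ≤ ⌈C₀ * N ^ 2⌉₊ := hTle _ (by
      have := hCN 8 (by norm_num) (by norm_num)
      linarith)
    have T3 : M ≤ ⌈C₀ * N ^ 2⌉₊ := hTle _ (by
      have h1 := hCN 88 (by norm_num) (by norm_num)
      have h2 : x ^ 2 * (N₁ : ℝ) ≤ x ^ 2 * (8 * x ^ 2) := by gcongr
      have h3 : x ^ 2 * (8 * x ^ 2) = 8 * x ^ 4 := by ring
      linarith)
    have T4 : G ≤ ⌈C₀ * N ^ 2⌉₊ := hTle _ (by
      have h1 := hCN 256 (by norm_num) (by norm_num)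
      have h2 : x ^ 2 * (G : ℝ) ≤ x ^ 2 * (256 * y ^ 4) := by
        refine hGhi.trans ?_
        calc 32 * (y ^ 4 * (N₁ : ℝ)) ≤ 32 * (y ^ 4 * (8 * x ^ 2)) := by gcongr
          _ = x ^ 2 * (256 * y ^ 4) := by ring
      have h3 : (G : ℝ) ≤ 256 * y ^ 4 := le_of_mul_le_mul_left h2 (by positivity)
      linarith)
    have T5 : H ≤ ⌈C₀ * N ^ 2⌉₊ := hTle _ (by
      have h1 : 32 * (H : ℝ) * x ^ 4 ≤ (N₁ : ℝ) ^ 3 * K₁ := hbx.H2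
      have h2 : (N₁ : ℝ) ^ 3 * K₁ ≤ (8 * x ^ 2) ^ 3 * (8 * y ^ 2) := by gcongr
      have h3 : x ^ 4 * (32 * (H : ℝ)) ≤ x ^ 4 * (4096 * (x ^ 2 * y ^ 2)) := by
        calc x ^ 4 * (32 * (H : ℝ)) = 32 * (H : ℝ) * x ^ 4 := by ring
          _ ≤ (8 * x ^ 2) ^ 3 * (8 * y ^ 2) := h1.trans h2
          _ = x ^ 4 * (4096 * (x ^ 2 * y ^ 2)) := by ring
      have h4 : 32 * (H : ℝ) ≤ 4096 * (x ^ 2 * y ^ 2) := le_of_mul_le_mul_left h3 (by positivity)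
      have h5 : x ^ 2 * y ^ 2 ≤ x ^ 4 * y ^ 4 := by gcongr
      have h6 := hCN 128 (by norm_num) (by norm_num)
      linarith)
    have T6 : ∀ i, a i ≤ ⌈C₀ * N ^ 2⌉₊ := fun i => hTle _ (by
      have h1 : (x * y) ^ 8 ≤ N ^ 2 := by
        calc (x * y) ^ 8 = (x ^ 4 * y ^ 4) ^ 2 := by ring
          _ ≤ N ^ 2 := by gcongr
      calc (a i : ℝ) ≤ (CA + CB) * (x * y) ^ 8 := ha2 i
        _ ≤ C₀ * N ^ 2 := by
          have h2 : (CA + CB) * (x * y) ^ 8 ≤ (CA + CB) * N ^ 2 := by gcongr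
          have h3 : (CA + CB) * N ^ 2 ≤ C₀ * N ^ 2 := by
            apply mul_le_mul_of_nonneg_right _ (by positivity)
            linarith
          linarith)
    have T7 : 1 ≤ ⌈C₀ * N ^ 2⌉₊ := le_trans hN₁ T1
    have hb := hL ⌈C₀ * N ^ 2⌉₊ N₁ K₁ M G V 1 1 1 1 1 H a (pairs N₁ K₁ 1) (fun _ => 1) (fun _ => 1) ρ
      (fun _ => (⌊m₀⌋ + 1)) (fun _ => (-(⌈y ^ 4 * (N₁ : ℝ) / x ^ 2⌉₊ : ℤ)))
      (fun _ => ⌊z₀⌋ + 1) (fun _ => 0) (fun _ => 0) c₀ hN₁ T1 hK₁ T2 hM1 T3 hG1 T4 hH1 T5 hV1 le_rfl le_rfl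
      le_rfl le_rfl (by simpa using T7) le_rfl T7 T6 squarefree_one ha1 (Finset.Subset.refl _) hRes
      (by
        rw [mul_one]
        calc 64 * H * V = 64 * V * H := by ring
          _ ≤ _ := hH64)
    refine hcard.trans (hb.trans ?_)
    have hmain : 2 / (H : ℝ) * (((M : ℝ) / ((1 : ℕ) : ℝ) + 1) * ((G : ℝ) / ((1 : ℕ) : ℝ) + 1)) *
        ((pairs N₁ K₁ 1).card : ℝ) ≤ 800000 * (N ^ ε * SB x y S) := by
      have h1 : ((M : ℝ) / ((1 : ℕ) : ℝ) + 1) ≤ 2 * M := by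
        rw [Nat.cast_one, div_one]
        linarith
      have h2 : ((G : ℝ) / ((1 : ℕ) : ℝ) + 1) ≤ 2 * G := by
        rw [Nat.cast_one, div_one]
        linarith
      calc 2 / (H : ℝ) * (((M : ℝ) / ((1 : ℕ) : ℝ) + 1) * ((G : ℝ) / ((1 : ℕ) : ℝ) + 1)) *
            ((pairs N₁ K₁ 1).card : ℝ)
          ≤ 2 / (H : ℝ) * ((2 * M) * (2 * G)) * ((N₁ : ℝ) * K₁) := by gcongr
        _ = 8 / H * ((M : ℝ) * G) * (N₁ * K₁) := by ring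
        _ ≤ 8 / H * (352 * (y ^ 4 * (N₁ : ℝ) ^ 2)) * (N₁ * K₁) := by gcongr
        _ = 2816 * y ^ 4 / H * ((N₁ : ℝ) ^ 3 * K₁) := by ring
        _ ≤ 2816 * y ^ 4 / H * (256 * H * x ^ 4) := by gcongr
        _ = 720896 * (x ^ 4 * y ^ 4) := by field_simp; ring
        _ ≤ 800000 * (x ^ 4 * y ^ 4) := by
          have : 0 ≤ x ^ 4 * y ^ 4 := by positivity
          linarith
        _ ≤ 800000 * SB x y S := by gcongr
        _ ≤ 800000 * (N ^ ε * SB x y S) := by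
          have : SB x y S ≤ N ^ ε * SB x y S := le_mul_of_one_le_left hSB0 hNε
          linarith
    have herr : CL * ((⌈C₀ * N ^ 2⌉₊ : ℕ) : ℝ) ^ (ε / 2) * (√((M : ℝ) * G) / H) *
        nB N₁ K₁ H 1 1 1 1 a ≤ CL * (2 * C₀) ^ (ε / 2) * (CA + CB) * (N ^ ε * SB x y S) := by
      have hT := BCA_T C₀ N ε (by linarith) hN hε
      have hT0 : 0 ≤ ((⌈C₀ * N ^ 2⌉₊ : ℕ) : ℝ) ^ (ε / 2) := Real.rpow_nonneg (Nat.cast_nonneg _) _
      calc CL * ((⌈C₀ * N ^ 2⌉₊ : ℕ) : ℝ) ^ (ε / 2) * (√((M : ℝ) * G) / H) * nB N₁ K₁ H 1 1 1 1 a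
          = CL * ((⌈C₀ * N ^ 2⌉₊ : ℕ) : ℝ) ^ (ε / 2) *
              (√((M : ℝ) * G) / H * nB N₁ K₁ H 1 1 1 1 a) := by ring
        _ ≤ CL * ((⌈C₀ * N ^ 2⌉₊ : ℕ) : ℝ) ^ (ε / 2) * ((CA + CB) * SB x y S) :=
            mul_le_mul_of_nonneg_left ha3 (by positivity)
        _ ≤ CL * ((2 * C₀) ^ (ε / 2) * N ^ ε) * ((CA + CB) * SB x y S) := by
            apply mul_le_mul_of_nonneg_right _ (by positivity)
            exact mul_le_mul_of_nonneg_left hT (by linarith)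
        _ = _ := by ring
    calc _ ≤ 800000 * (N ^ ε * SB x y S) +
          CL * (2 * C₀) ^ (ε / 2) * (CA + CB) * (N ^ ε * SB x y S) := add_le_add hmain herr
      _ = _ := by ring
  · have hH0 : H = 0 := by omega
    rw [hH0] at hHltR
    have hHl : (N₁ : ℝ) ^ 3 * K₁ ≤ 64 * V := by simpa using hHltR
    have hNK0 : 0 < (N₁ : ℝ) ^ 3 * K₁ := by positivity
    have hterm : ∀ p ∈ pairs N₁ K₁ 1, ((fibG (⌊m₀⌋ + 1)
        (-(⌈y ^ 4 * (N₁ : ℝ) / x ^ 2⌉₊ : ℤ)) (⌊z₀⌋ + 1) M G V 1 (p.1 ^ 3 * p.2 * 1) 0 0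
        (ρ p).1 (ρ p).2.1 (ρ p).2.2 (c₀ p)).card : ℝ) ≤
          (M : ℝ) * G * (80 * V / ((N₁ : ℝ) ^ 3 * K₁)) := by
      intro p hp
      have hp' := Finset.mem_filter.mp hp
      have hp1 := hp'.1
      rw [Finset.mem_product, Finset.mem_Icc, Finset.mem_Icc] at hp1
      have hn1 : 1 ≤ p.1 := hp1.1.1
      have hk1 : 1 ≤ p.2 := hp1.2.1
      have hq1 : 1 ≤ p.1 ^ 3 * p.2 * 1 := by
        rw [mul_one]
        exact Nat.mul_pos (Nat.pow_pos hn1) hk1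
      refine (BCA_fib _ _ _ M G V (p.1 ^ 3 * p.2 * 1) _ _ _ _ hq1).trans ?_
      apply mul_le_mul_of_nonneg_left _ (by positivity)
      have h1 : N₁ ^ 3 * K₁ ≤ 16 * (p.1 ^ 3 * p.2) := by
        calc N₁ ^ 3 * K₁ ≤ (2 * p.1) ^ 3 * (2 * p.2) :=
              Nat.mul_le_mul (Nat.pow_le_pow_left hp'.2.1.le 3) hp'.2.2.1.le
          _ = 16 * (p.1 ^ 3 * p.2) := by ring
      have h2 : (N₁ : ℝ) ^ 3 * K₁ ≤ 16 * ((p.1 ^ 3 * p.2 * 1 : ℕ) : ℝ) := by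
        rw [mul_one]
        exact_mod_cast h1
      have hq0 : (0 : ℝ) < ((p.1 ^ 3 * p.2 * 1 : ℕ) : ℝ) := by exact_mod_cast hq1
      have h3 : (V : ℝ) / ((p.1 ^ 3 * p.2 * 1 : ℕ) : ℝ) ≤ 16 * V / ((N₁ : ℝ) ^ 3 * K₁) := by
        rw [div_le_div_iff₀ hq0 hNK0]
        calc (V : ℝ) * ((N₁ : ℝ) ^ 3 * K₁) ≤ V * (16 * ((p.1 ^ 3 * p.2 * 1 : ℕ) : ℝ)) := by gcongr
          _ = 16 * V * ((p.1 ^ 3 * p.2 * 1 : ℕ) : ℝ) := by ring
      have h4 : 1 ≤ 64 * V / ((N₁ : ℝ) ^ 3 * K₁) := by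
        rw [le_div_iff₀ hNK0]
        linarith
      have h5 : 80 * (V : ℝ) / ((N₁ : ℝ) ^ 3 * K₁) = 16 * V / ((N₁ : ℝ) ^ 3 * K₁) +
          64 * V / ((N₁ : ℝ) ^ 3 * K₁) := by ring
      rw [h5]
      linarith
    have hall : (F.card : ℝ) ≤ 800000 * (N ^ ε * SB x y S) := by
      calc (F.card : ℝ) ≤ _ := hcard
        _ ≤ ∑ p ∈ pairs N₁ K₁ 1, (M : ℝ) * G * (80 * V / ((N₁ : ℝ) ^ 3 * K₁)) :=
            Finset.sum_le_sum hterm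
        _ = ((pairs N₁ K₁ 1).card : ℝ) * ((M : ℝ) * G * (80 * V / ((N₁ : ℝ) ^ 3 * K₁))) := by
            rw [Finset.sum_const, nsmul_eq_mul]
        _ ≤ ((N₁ : ℝ) * K₁) * (352 * (y ^ 4 * (N₁ : ℝ) ^ 2) * (80 * (2 * x ^ 4) / ((N₁ : ℝ) ^ 3 * K₁))) := by
            gcongr
        _ = 56320 * (x ^ 4 * y ^ 4) := by field_simp; ring
        _ ≤ 800000 * (x ^ 4 * y ^ 4) := by
          have : 0 ≤ x ^ 4 * y ^ 4 := by positivity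
          linarith
        _ ≤ 800000 * SB x y S := by gcongr
        _ ≤ 800000 * (N ^ ε * SB x y S) := by
          have : SB x y S ≤ N ^ ε * SB x y S := le_mul_of_one_le_left hSB0 hNε
          linarith
    have hextra : 0 ≤ CL * (2 * C₀) ^ (ε / 2) * (CA + CB) * (N ^ ε * SB x y S) := by positivity
    calc (F.card : ℝ) ≤ 800000 * (N ^ ε * SB x y S) +
          CL * (2 * C₀) ^ (ε / 2) * (CA + CB) * (N ^ ε * SB x y S) := by linarith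
      _ = _ := by ring

end Pool.Agent.T6R
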